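import Pool.Agent.Helper7.SC.DP.Frames
import Pool.Agent.Helper43.SC.Br4
import Pool.Agent.Helper18.SC.StD

/-! (M3) one cell: Cauchy-Schwarz with the majorants, and Jensen. -/

set_option autoImplicit false

namespace Pool.Agent.Helper43.SC.DP

open Finset
open Pool.Agent.Helper7.SC (ka Kz R e)
open Pool.Agent.Helper57.LJ (dig)
open Pool.Agent.Helper43.SC
open Pool.Agent.Helper18.SC (exp_le abs_ka)

/-- the hits at one digit, one guess for all elements -/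
lemma m3_hits {ι : Type} (b : ℕ) (hb : 2 ≤ b) (ε : ℝ) (H : ℕ) (M : ℝ) (c : ℤ → ℂ) (d : ℕ)
    (hc : ∀ k, ‖c k‖ ≤ M) (hc0 : (c 0).re ≤ 1 / b + ε)
    (hmaj : ∀ y : ℝ, (if Nat.floor ((b : ℝ) * Int.fract y) = d then (1 : ℝ) else 0) ≤
        (∑ k ∈ Icc (-(H : ℤ)) H, c k * e (k * y)).re)
    (T : Finset ι) (a : ι → ℕ) (i : ℕ) :
    ∑ t ∈ T, (if dig b i (a t) = d then (1 : ℝ) else 0) ≤ (1 / b + ε) * #T +
      M * ∑ k ∈ Kz H, ‖∑ t ∈ T, e (k * ((a t : ℝ) / (b : ℝ) ^ (i + 1)))‖ := by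
  have h1 : ∀ t ∈ T, (if dig b i (a t) = d then (1 : ℝ) else 0) ≤ (1 / b + ε) +
      (∑ k ∈ Kz H, c k * e (k * ((a t : ℝ) / (b : ℝ) ^ (i + 1)))).re := by
    intro t _
    have h2 := hmaj ((a t : ℝ) / (b : ℝ) ^ (i + 1))
    rw [Pool.Agent.Helper43.LJ.floor_fract_dig b hb, sum_Icc_split, Complex.add_re] at h2
    have h3 : (c 0 * e (((0 : ℤ) : ℝ) * ((a t : ℝ) / (b : ℝ) ^ (i + 1)))).re = (c 0).re := by
      have : e (((0 : ℤ) : ℝ) * ((a t : ℝ) / (b : ℝ) ^ (i + 1))) = 1 := by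
        unfold e
        simp
      rw [this, mul_one]
    rw [h3] at h2
    linarith
  refine (Finset.sum_le_sum h1).trans ?_
  rw [Finset.sum_add_distrib, Finset.sum_const, nsmul_eq_mul, mul_comm (#T : ℝ)]
  refine add_le_add le_rfl ?_
  rw [← Complex.re_sum, Finset.sum_comm, Finset.mul_sum]
  refine (Complex.re_le_norm _).trans ((norm_sum_le _ _).trans (Finset.sum_le_sum fun k _ => ?_))
  rw [← Finset.mul_sum, norm_mul]
  exact mul_le_mul_of_nonneg_right (hc k) (norm_nonneg _)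

/-- the square of an exponential sum -/
lemma m3_sq {ι : Type} (T : Finset ι) (y : ι → ℝ) :
    ‖∑ t ∈ T, e (y t)‖ ^ 2 = ∑ t ∈ T, ∑ t' ∈ T, Real.cos (2 * Real.pi * (y t - y t')) := by
  have h1 : ‖∑ t ∈ T, e (y t)‖ ^ 2 =
      ((∑ t ∈ T, e (y t)) * (starRingEnd ℂ) (∑ t ∈ T, e (y t))).re := by
    rw [Complex.mul_conj', ← Complex.ofReal_pow, Complex.ofReal_re]
  rw [h1, map_sum, Finset.sum_mul_sum, Complex.re_sum]
  refine Finset.sum_congr rfl fun t _ => ?_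
  rw [Complex.re_sum]
  exact Finset.sum_congr rfl fun t' _ => e_conj_mul _ _

/-- the sum over the frequencies -/
lemma m3_ka {ι : Type} (H : ℕ) (hH : 1 ≤ H) (T : Finset ι) (y : ι → ℝ) :
    ∑ k ∈ Kz H, ‖∑ t ∈ T, e (k * y t)‖ ^ 2 = 2 * H * ∑ t ∈ T, ∑ t' ∈ T, ka H (y t - y t') := by
  have hH0 : (H : ℝ) ≠ 0 := by
    have : H ≠ 0 := by omega
    exact_mod_cast this
  have h1 : ∀ k ∈ Kz H, ‖∑ t ∈ T, e (k * y t)‖ ^ 2 =
      ∑ t ∈ T, ∑ t' ∈ T, Real.cos (2 * Real.pi * (k * (y t - y t'))) := by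
    intro k _
    rw [m3_sq T (fun t => (k : ℝ) * y t)]
    refine Finset.sum_congr rfl fun t _ => Finset.sum_congr rfl fun t' _ => ?_
    rw [mul_sub (k : ℝ)]
  rw [Finset.sum_congr rfl h1, Finset.sum_comm, Finset.mul_sum]
  refine Finset.sum_congr rfl fun t _ => ?_
  rw [Finset.sum_comm, Finset.mul_sum]
  refine Finset.sum_congr rfl fun t' _ => ?_
  unfold ka
  rw [← mul_assoc, mul_one_div_cancel (mul_ne_zero two_ne_zero hH0), one_mul]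

/-- Cauchy-Schwarz over the blocks and the frequencies -/
lemma m3_cs (m H : ℕ) (N : ℕ → ℤ → ℝ) :
    (∑ B ∈ range m, ∑ k ∈ Kz H, N B k) ^ 2 ≤
      m * (2 * H) * ∑ B ∈ range m, ∑ k ∈ Kz H, N B k ^ 2 := by
  have h1 := sq_sum_le_card_mul_sum_sq (s := range m ×ˢ Kz H) (f := fun x => N x.1 x.2)
  rw [Finset.sum_product, Finset.sum_product, Finset.card_product, card_range,
    Pool.Agent.Helper43.SC.card_Kz] at h1
  push_cast at h1
  exact h1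

/-- the twist from below -/
lemma m3_R (b q r m H : ℕ) (hH : 1 ≤ H) (Δ : ℝ) (hΔ : 0 < Δ) (hΔ' : Δ ≤ 1 / 2) (d : ℤ) :
    Real.exp (Δ * ∑ B : Fin m, ka H ((d : ℝ) / (b : ℝ) ^ (r + (B + 1) * q)) -
      Δ ^ 2 * m) ≤ R b q r m H Δ d := by
  unfold R
  have e1 : Δ * ∑ B : Fin m, ka H ((d : ℝ) / (b : ℝ) ^ (r + (B + 1) * q)) - Δ ^ 2 * m =
      ∑ B : Fin m, (Δ * ka H ((d : ℝ) / (b : ℝ) ^ (r + (B + 1) * q)) - Δ ^ 2) := by
    rw [sum_sub_distrib, mul_sum]; simp; ring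
  rw [e1, Real.exp_sum]
  refine prod_le_prod (fun _ _ => (Real.exp_pos _).le) fun B _ => ?_
  obtain ⟨y, hy⟩ : ∃ y, y = ka H ((d : ℝ) / (b : ℝ) ^ (r + (B + 1) * q)) := ⟨_, rfl⟩
  rw [← hy]
  have h1 : |y| ≤ 1 := by rw [hy]; exact abs_ka hH _
  have h2 : |Δ * y| ≤ 1 / 2 := by
    rw [abs_mul, abs_of_pos hΔ]
    calc Δ * |y| ≤ Δ * 1 := mul_le_mul_of_nonneg_left h1 hΔ.le
      _ ≤ _ := by linarith
  refine le_trans (Real.exp_le_exp.2 ?_) (exp_le h2)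
  have h3 : y ^ 2 ≤ 1 := by
    rw [← sq_abs]; exact pow_le_one₀ (abs_nonneg _) h1
  nlinarith [sq_nonneg Δ]

/-- Jensen -/
lemma m3_jensen {ι : Type} (T : Finset ι) (W : ι → ι → ℝ) (m κ Δ : ℝ) (hΔ : 0 < Δ)
    (hW : κ * m * (#T : ℝ) ^ 2 ≤ ∑ t ∈ T, ∑ t' ∈ T, W t t') :
    (#T : ℝ) ^ 2 * Real.exp ((Δ * κ - Δ ^ 2) * m) ≤
      ∑ t ∈ T, ∑ t' ∈ T, Real.exp (Δ * W t t' - Δ ^ 2 * m) := by
  obtain ⟨x₀, hx₀⟩ : ∃ x₀ : ℝ, x₀ = (Δ * κ - Δ ^ 2) * m := ⟨_, rfl⟩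
  have hexp : ∀ x : ℝ, Real.exp x₀ * (1 + (x - x₀)) ≤ Real.exp x := by
    intro x
    have h1 := Real.add_one_le_exp (x - x₀)
    have h2 : Real.exp x = Real.exp x₀ * Real.exp (x - x₀) := by
      rw [← Real.exp_add]; congr 1; ring
    rw [h2]
    exact mul_le_mul_of_nonneg_left (by linarith) (Real.exp_pos _).le
  rw [← hx₀]
  refine le_trans ?_ (Finset.sum_le_sum fun t _ => Finset.sum_le_sum fun t' _ =>
    hexp (Δ * W t t' - Δ ^ 2 * m))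
  have h1 : ∑ t ∈ T, ∑ t' ∈ T, Real.exp x₀ * (1 + (Δ * W t t' - Δ ^ 2 * m - x₀)) =
      Real.exp x₀ * ((#T : ℝ) ^ 2 * (1 - Δ ^ 2 * m - x₀) + Δ * ∑ t ∈ T, ∑ t' ∈ T, W t t') := by
    have h2 : ∀ t ∈ T, ∑ t' ∈ T, Real.exp x₀ * (1 + (Δ * W t t' - Δ ^ 2 * m - x₀)) =
        Real.exp x₀ * ((#T : ℝ) * (1 - Δ ^ 2 * m - x₀) + Δ * ∑ t' ∈ T, W t t') := by
      intro t _
      rw [← Finset.mul_sum]
      congr 1
      have h3 : ∀ t' ∈ T, 1 + (Δ * W t t' - Δ ^ 2 * m - x₀) =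
          (1 - Δ ^ 2 * m - x₀) + Δ * W t t' := fun t' _ => by ring
      rw [Finset.sum_congr rfl h3, Finset.sum_add_distrib, Finset.sum_const, nsmul_eq_mul,
        ← Finset.mul_sum]
    rw [Finset.sum_congr rfl h2, ← Finset.mul_sum]
    congr 1
    rw [Finset.sum_add_distrib, Finset.sum_const, nsmul_eq_mul, ← Finset.mul_sum]
    ring
  rw [h1, mul_comm ((#T : ℝ) ^ 2)]
  refine mul_le_mul_of_nonneg_left ?_ (Real.exp_pos _).le
  have h4 := mul_le_mul_of_nonneg_left hW hΔ.le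
  rw [hx₀]
  nlinarith [h4]

theorem stM3 : Pool.Agent.Helper7.SC.DP.StM3 := by
  intro b ε hb hε
  obtain ⟨H, M, c, hH, hM, hc, hc0, hmaj⟩ := maj_bdd b hb (ε / 2) (by positivity)
  have hbR : (2 : ℝ) ≤ b := by exact_mod_cast hb
  have hb0 : (0 : ℝ) < b := by linarith
  have hHR : (1 : ℝ) ≤ H := by exact_mod_cast hH
  have hH0 : (0 : ℝ) < H := by linarith
  have hM0 : 0 < M := by linarith
  refine ⟨H, min 1 (ε ^ 2 / (16 * M ^ 2 * H ^ 2)), hH, lt_min one_pos (by positivity),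
    min_le_left _ _, ?_⟩
  intro q r m Δ hq hΔ hΔ' ι T a g hg
  obtain ⟨κ, hκ⟩ : ∃ κ : ℝ, κ = min 1 (ε ^ 2 / (16 * M ^ 2 * H ^ 2)) := ⟨_, rfl⟩
  rw [← hκ]
  have hκ1 : κ ≤ ε ^ 2 / (16 * M ^ 2 * H ^ 2) := by rw [hκ]; exact min_le_right _ _
  have hpos : ∀ B : ℕ, r + (B + 1) * q - 1 + 1 = r + (B + 1) * q := by
    intro B
    have : 0 < (B + 1) * q := Nat.mul_pos (by omega) (by omega)
    omega
  -- the form
  obtain ⟨W, hW⟩ : ∃ W : ι → ι → ℝ, W = fun t t' =>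
      ∑ B : Fin m, ka H (((a t : ℝ) - a t') / (b : ℝ) ^ (r + (B + 1) * q)) := ⟨_, rfl⟩
  -- lower bound for the hits
  have h1 : (1 / b + ε) * m * #T ≤ ∑ B ∈ range m, ∑ t ∈ T,
      (if dig b (r + (B + 1) * q - 1) (a t) = g B then (1 : ℝ) else 0) := by
    rw [Finset.sum_comm]
    have h2 : ∑ _t ∈ T, (1 / b + ε) * (m : ℝ) ≤ ∑ t ∈ T, ∑ B ∈ range m,
        (if dig b (r + (B + 1) * q - 1) (a t) = g B then (1 : ℝ) else 0) := by
      refine Finset.sum_le_sum fun t ht => (hg t ht).trans (le_of_eq ?_)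
      rw [Finset.card_filter]
      push_cast
      rfl
    rw [Finset.sum_const, nsmul_eq_mul] at h2
    linarith
  -- upper bound
  have h3 : ∑ B ∈ range m, ∑ t ∈ T,
      (if dig b (r + (B + 1) * q - 1) (a t) = g B then (1 : ℝ) else 0) ≤
      m * ((1 / b + ε / 2) * #T) + M * ∑ B ∈ range m, ∑ k ∈ Kz H,
        ‖∑ t ∈ T, e (k * ((a t : ℝ) / (b : ℝ) ^ (r + (B + 1) * q)))‖ := by
    refine (Finset.sum_le_sum fun B _ => m3_hits b hb (ε / 2) H M (c (g B)) (g B)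
      (fun k => hc _ k) (hc0 _) (hmaj _) T a (r + (B + 1) * q - 1)).trans (le_of_eq ?_)
    rw [Finset.sum_add_distrib, Finset.sum_const, card_range, nsmul_eq_mul, ← Finset.mul_sum]
    congr 2
    refine Finset.sum_congr rfl fun B _ => ?_
    rw [hpos B]
  obtain ⟨E, hE⟩ : ∃ E : ℝ, E = ∑ B ∈ range m, ∑ k ∈ Kz H,
        ‖∑ t ∈ T, e (k * ((a t : ℝ) / (b : ℝ) ^ (r + (B + 1) * q)))‖ := ⟨_, rfl⟩
  rw [← hE] at h3
  have h4 : ε / 2 * m * #T ≤ M * E := by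
    have := h1.trans h3
    nlinarith
  -- Cauchy-Schwarz
  have h5 : E ^ 2 ≤ m * (2 * H) * (2 * H * ∑ t ∈ T, ∑ t' ∈ T, W t t') := by
    rw [hE]
    refine (m3_cs m H _).trans (le_of_eq ?_)
    congr 1
    have h6 : ∀ B ∈ range m, ∑ k ∈ Kz H,
        ‖∑ t ∈ T, e (k * ((a t : ℝ) / (b : ℝ) ^ (r + (B + 1) * q)))‖ ^ 2 =
        2 * H * ∑ t ∈ T, ∑ t' ∈ T, ka H (((a t : ℝ) - a t') / (b : ℝ) ^ (r + (B + 1) * q)) := by
      intro B _
      rw [m3_ka H hH T (fun t => (a t : ℝ) / (b : ℝ) ^ (r + (B + 1) * q))]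
      congr 1
      refine Finset.sum_congr rfl fun t _ => Finset.sum_congr rfl fun t' _ => ?_
      rw [sub_div]
    rw [Finset.sum_congr rfl h6, ← Finset.mul_sum]
    congr 1
    rw [Finset.sum_comm]
    refine Finset.sum_congr rfl fun t _ => ?_
    rw [Finset.sum_comm]
    refine Finset.sum_congr rfl fun t' _ => ?_
    rw [hW]
    exact (Fin.sum_univ_eq_sum_range
      (fun B => ka H (((a t : ℝ) - a t') / (b : ℝ) ^ (r + (B + 1) * q))) m).symm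
  have hE0 : 0 ≤ E := by
    rw [hE]
    exact Finset.sum_nonneg fun _ _ => Finset.sum_nonneg fun _ _ => norm_nonneg _
  have h7 : κ * m * (#T : ℝ) ^ 2 ≤ ∑ t ∈ T, ∑ t' ∈ T, W t t' := by
    rcases Nat.eq_zero_or_pos m with hm | hm
    · subst hm
      rw [hW]
      simp
    · have hm' : (0 : ℝ) < m := by exact_mod_cast hm
      have h8 : (ε / 2 * m * #T) ^ 2 ≤ (M * E) ^ 2 := by
        refine pow_le_pow_left₀ (by positivity) h4 2
      have h9 : (M * E) ^ 2 ≤ M ^ 2 * (m * (2 * H) * (2 * H * ∑ t ∈ T, ∑ t' ∈ T, W t t')) := by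
        rw [mul_pow]
        exact mul_le_mul_of_nonneg_left h5 (by positivity)
      have h10 := h8.trans h9
      have h11 : (4 * M ^ 2 * H ^ 2 * m) * (ε ^ 2 / (16 * M ^ 2 * H ^ 2) * m * (#T : ℝ) ^ 2) ≤
          (4 * M ^ 2 * H ^ 2 * m) * ∑ t ∈ T, ∑ t' ∈ T, W t t' := by
        refine le_trans (le_of_eq ?_) (h10.trans (le_of_eq ?_))
        · field_simp
          ring
        · ring
      have h12 := le_of_mul_le_mul_left h11 (by positivity)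
      refine le_trans ?_ h12
      refine mul_le_mul_of_nonneg_right ?_ (by positivity)
      exact mul_le_mul_of_nonneg_right hκ1 hm'.le
  refine (m3_jensen T W m κ Δ hΔ h7).trans ?_
  refine Finset.sum_le_sum fun t _ => Finset.sum_le_sum fun t' _ => ?_
  have h13 := m3_R b q r m H hH Δ hΔ hΔ' ((a t : ℤ) - a t')
  have h14 : ((((a t : ℤ) - a t' : ℤ)) : ℝ) = (a t : ℝ) - a t' := by push_cast; rfl
  rw [h14] at h13
  rw [hW]
  exact h13

end Pool.Agent.Helper43.SC.DP
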